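import Pool.Agent.H66.SYM.Basic

/-!
# Project T5, module FIN: the main theorem
-/

set_option autoImplicit false
set_option linter.unusedSectionVars false

namespace Pool.H66.SYM

open Filter Topology

/-- `F` is the trace of an isobaric representation -/
def FIN_R (A : Aut) (F : A.Pt → ℂ) : Prop :=
  ∃ Q : Multiset A.Cusp, ∀ p, (A.eigs Q p).sum = F p

theorem FIN_mul (hTEN : S_TEN) (A : Aut) (h2 : A.HasSym 2) {F G : A.Pt → ℂ} (hF : FIN_R A F)
    (hG : FIN_R A G) : FIN_R A (fun p => F p * G p) := by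
  obtain ⟨P, hP⟩ := hF
  obtain ⟨Q, hQ⟩ := hG
  obtain ⟨T, hT⟩ := hTEN A h2 P Q
  exact ⟨T, fun p => by rw [hT, hP, hQ]⟩

theorem FIN_one (hBAS : S_BAS) (A : Aut) : FIN_R A (fun _ => 1) := by
  refine ⟨{A.one}, fun p => ?_⟩
  rw [eigs_singleton, (hBAS A).2.2.2.1 p]
  simp

theorem FIN_pow (hBAS : S_BAS) (hTEN : S_TEN) (A : Aut) (h2 : A.HasSym 2) {F : A.Pt → ℂ}
    (hF : FIN_R A F) (n : ℕ) : FIN_R A (fun p => F p ^ n) := by
  induction n with
  | zero => simpa using FIN_one hBAS A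
  | succ n ih =>
    have := FIN_mul hTEN A h2 ih hF
    simpa only [pow_succ] using this

theorem FIN_prod (hBAS : S_BAS) (hTEN : S_TEN) (A : Aut) (h2 : A.HasSym 2) {r : ℕ}
    {F : Fin r → A.Pt → ℂ} (hF : ∀ i, FIN_R A (F i)) : FIN_R A (fun p => ∏ i, F i p) := by
  classical
  have : ∀ s : Finset (Fin r), FIN_R A (fun p => ∏ i ∈ s, F i p) := by
    intro s
    induction s using Finset.induction_on with
    | empty => simpa using FIN_one hBAS A
    | insert i s hi ih =>
      have := FIN_mul hTEN A h2 (hF i) ih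
      simpa only [Finset.prod_insert hi] using this
  exact this Finset.univ

theorem FIN_det (hBAS : S_BAS) (hTEN : S_TEN) (A : Aut) (h2 : A.HasSym 2) (P : Multiset A.Cusp) :
    FIN_R A (fun p => (A.eigs P p).prod) ∧ FIN_R A (fun p => ((A.eigs P p).prod)⁻¹) := by
  induction P using Multiset.induction_on with
  | empty =>
    constructor
    · have := FIN_one hBAS A
      simpa only [eigs_zero, Multiset.prod_zero] using this
    · have := FIN_one hBAS A
      simpa only [eigs_zero, Multiset.prod_zero, inv_one] using this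
  | cons σ P ih =>
    have h1 : FIN_R A (fun p => (A.eig σ p).prod) := by
      refine ⟨{A.det σ}, fun p => ?_⟩
      rw [eigs_singleton, (hBAS A).2.2.2.2.2.2.1 σ p]
      simp
    have h3 : FIN_R A (fun p => ((A.eig σ p).prod)⁻¹) := by
      refine ⟨{A.dual (A.det σ)}, fun p => ?_⟩
      rw [eigs_singleton, (hBAS A).2.2.2.2.1 (A.det σ) p, (hBAS A).2.2.2.2.2.2.1 σ p]
      simp
    constructor
    · have := FIN_mul hTEN A h2 h1 ih.1
      simpa only [eigs_cons, Multiset.prod_add] using this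
    · have := FIN_mul hTEN A h2 h3 ih.2
      simpa only [eigs_cons, Multiset.prod_add, mul_inv] using this

theorem FIN_sch (hBAS : S_BAS) (hXTR : S_XTR) (A : Aut) (hA : ∀ k, A.HasSym k) (r : ℕ) :
    A.HasSch r := by
  have h0 : A.HasSch 0 := by
    intro lam _ P
    refine ⟨{A.one}, fun p => ?_⟩
    rw [eigs_singleton, (hBAS A).2.2.2.1 p]
    simp [schur, JT]
  have h1 : A.HasSch 1 := by
    intro lam _ P
    obtain ⟨Q, hQ⟩ := hA (lam 0) P
    refine ⟨Q, fun p => ?_⟩
    rw [hQ]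
    simp [schur, JT, sz]
  rcases Nat.eq_zero_or_pos r with h | h
  · rw [h]; exact h0
  · obtain ⟨k, rfl⟩ : ∃ k, r = k + 1 := ⟨r - 1, by omega⟩
    clear h
    induction k with
    | zero => exact h1
    | succ k ih => exact hXTR A (k + 1) (by omega) hA ih

/-- Module FIN. -/
theorem s_FIN (hXTR : S_XTR) (hHSB : S_HSB) (hTEN : S_TEN) (hIND : S_IND) (hBAS : S_BAS) :
    S_FIN := by
  intro A hA r P n lam hlam e
  refine FIN_prod hBAS hTEN A (hA 2) (fun i => ?_)
  refine FIN_mul hTEN A (hA 2) ?_ ?_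
  · obtain ⟨Q, hQ⟩ := FIN_sch hBAS hXTR A hA (n i) (lam i) (hlam i) (P i)
    exact ⟨Q, hQ⟩
  · obtain ⟨h1, h3⟩ := FIN_det hBAS hTEN A (hA 2) (P i)
    rcases Int.eq_nat_or_neg (e i) with ⟨k, hk | hk⟩
    · have := FIN_pow hBAS hTEN A (hA 2) h1 k
      simpa only [hk, zpow_natCast] using this
    · have := FIN_pow hBAS hTEN A (hA 2) h3 k
      simpa only [hk, zpow_neg, zpow_natCast, inv_pow] using this

end Pool.H66.SYM
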