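import Pool.Agent.H66.SYM.Basic

/-!
# Project T5, module PIE: Pieri's rule for one box
-/

set_option autoImplicit false
set_option linter.unusedSectionVars false

namespace Pool.H66.SYM

open Filter Topology

/-- alternants -/
noncomputable def PIE_a {m : ℕ} (c : Fin m → ℂ) (α : Fin m → ℕ) : ℂ :=
  (Matrix.of fun i j : Fin m => c i ^ α j).det

theorem PIE_sum {m : ℕ} (c : Fin m → ℂ) (α : Fin m → ℕ) :
    (∑ j, c j) * PIE_a c α = ∑ k, PIE_a c (α + Pi.single k 1) := by
  classical
  unfold PIE_a
  simp only [Matrix.det_apply, Matrix.of_apply]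
  rw [Finset.sum_comm, Finset.mul_sum]
  refine Finset.sum_congr rfl fun σ _ => ?_
  rw [← Finset.smul_sum, mul_smul_comm]
  congr 1
  rw [← Equiv.sum_comp σ c, Finset.sum_mul]
  refine Finset.sum_congr rfl fun k _ => ?_
  have : ∀ i, c (σ i) ^ (α + Pi.single k 1 : Fin m → ℕ) i =
      c (σ i) ^ α i * (if i = k then c (σ k) else 1) := by
    intro i
    by_cases h : i = k
    · subst h
      simp [pow_succ]
    · simp [h]
  simp only [this]
  rw [Finset.prod_mul_distrib, Finset.prod_ite_eq']
  simp [mul_comm]

theorem PIE_zero {m : ℕ} (c : Fin m → ℂ) (α : Fin m → ℕ) {i j : Fin m} (hij : i ≠ j)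
    (h : α i = α j) : PIE_a c α = 0 := by
  unfold PIE_a
  refine Matrix.det_zero_of_column_eq hij fun k => ?_
  simp [h]

theorem PIE_ne {m : ℕ} (c : Fin m → ℂ) (hc : Function.Injective c) :
    PIE_a c (fun j => m - 1 - (j : ℕ)) ≠ 0 := by
  unfold PIE_a
  have e : (Matrix.of fun i j : Fin m => c i ^ (m - 1 - (j : ℕ))) =
      (Matrix.vandermonde c).submatrix id Fin.revPerm := by
    ext i j
    simp only [Matrix.of_apply, Matrix.submatrix_apply, Matrix.vandermonde_apply, id]
    congr 1
    simp only [Fin.revPerm_apply, Fin.val_rev]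
    omega
  rw [e, Matrix.det_permute']
  refine mul_ne_zero ?_ (Matrix.det_vandermonde_ne_zero_iff.2 hc)
  rcases Int.units_eq_one_or (Equiv.Perm.sign (Fin.revPerm : Equiv.Perm (Fin m))) with h | h <;>
    rw [h] <;> simp

theorem PIE_hs_cont (m k : ℕ) :
    Continuous fun c : Fin m → ℂ => hs k (Finset.univ.val.map c) := by
  classical
  have e : (fun c : Fin m → ℂ => hs k (Finset.univ.val.map c)) = fun c =>
      ∑ l ∈ Finset.finsuppAntidiag Finset.univ k, ∏ i : Fin m, c i ^ (l i) := by
    funext c
    unfold hs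
    rw [Multiset.map_map]
    have : (Multiset.map ((fun a : ℂ => (PowerSeries.mk fun n => a ^ n : PowerSeries ℂ)) ∘ c)
        (Finset.univ : Finset (Fin m)).val).prod =
        ∏ i : Fin m, (PowerSeries.mk fun n => c i ^ n : PowerSeries ℂ) := rfl
    rw [this, PowerSeries.coeff_prod]
    refine Finset.sum_congr rfl fun l _ => ?_
    refine Finset.prod_congr rfl fun i _ => ?_
    rw [PowerSeries.coeff_mk]
  rw [e]
  fun_prop

theorem PIE_schur_cont (m : ℕ) {r : ℕ} (lam : Fin r → ℕ) :
    Continuous fun c : Fin m → ℂ => schur lam (Finset.univ.val.map c) := by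
  unfold schur JT
  apply Continuous.matrix_det
  refine continuous_matrix fun i j => ?_
  simp only [Matrix.of_apply]
  unfold sz
  split_ifs
  · exact PIE_hs_cont m _
  · exact continuous_const

theorem PIE_inj {m : ℕ} (c : Fin m → ℂ) :
    ∀ᶠ t in 𝓝[≠] (0 : ℂ), Function.Injective (fun i : Fin m => c i + t * ((i : ℕ) : ℂ)) := by
  have h : ∀ i j : Fin m, i ≠ j → ∀ᶠ t in 𝓝[≠] (0 : ℂ),
      c i + t * ((i : ℕ) : ℂ) ≠ c j + t * ((j : ℕ) : ℂ) := by
    intro i j hij
    by_cases hc : c i = c j
    · filter_upwards [self_mem_nhdsWithin] with t ht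
      intro heq
      rw [hc] at heq
      have h1 : t * ((i : ℕ) : ℂ) = t * ((j : ℕ) : ℂ) := add_left_cancel heq
      have h2 := mul_left_cancel₀ ht h1
      exact hij (Fin.ext (by exact_mod_cast h2))
    · have h1 : Continuous fun t : ℂ => (c i + t * ((i : ℕ) : ℂ)) - (c j + t * ((j : ℕ) : ℂ)) := by
        fun_prop
      have h2 : ∀ᶠ t in 𝓝 (0 : ℂ), (c i + t * ((i : ℕ) : ℂ)) - (c j + t * ((j : ℕ) : ℂ)) ≠ 0 := by
        apply h1.continuousAt.eventually_ne
        simpa using sub_ne_zero.2 hc
      filter_upwards [nhdsWithin_le_nhds h2] with t ht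
      exact sub_ne_zero.1 ht
  have h' : ∀ᶠ t in 𝓝[≠] (0 : ℂ), ∀ i j : Fin m, i ≠ j →
      c i + t * ((i : ℕ) : ℂ) ≠ c j + t * ((j : ℕ) : ℂ) := by
    rw [Filter.eventually_all]
    intro i
    rw [Filter.eventually_all]
    intro j
    by_cases hij : i = j
    · exact Filter.Eventually.of_forall fun t ht => absurd hij ht
    · filter_upwards [h i j hij] with t ht _
      exact ht
  filter_upwards [h'] with t ht i j hij
  by_contra hne
  exact ht i j hne hij

/-- Module PIE. -/
theorem s_PIE (hJTB : S_JTB) : S_PIE := by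
  classical
  intro m c mu hmu
  have hsum : ∀ c : Fin m → ℂ, (∑ᶠ i ∈ {i : Fin m | Antitone (mu + Pi.single i 1)},
      schur (mu + Pi.single i 1) (Finset.univ.val.map c)) =
      ∑ i, if Antitone (mu + Pi.single i 1) then
        schur (mu + Pi.single i 1) (Finset.univ.val.map c) else 0 := by
    intro c
    rw [finsum_eq_sum_of_fintype]
    refine Finset.sum_congr rfl fun i _ => ?_
    rw [finsum_eq_if]
    rfl
  -- the case of distinct entries
  have hmain : ∀ c : Fin m → ℂ, Function.Injective c →
      (∑ j, c j) * schur mu (Finset.univ.val.map c) =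
      ∑ i, if Antitone (mu + Pi.single i 1) then
        schur (mu + Pi.single i 1) (Finset.univ.val.map c) else 0 := by
    intro c hc
    have hD := PIE_ne c hc
    refine mul_right_cancel₀ hD ?_
    have h1 : schur mu (Finset.univ.val.map c) * PIE_a c (fun j => m - 1 - (j : ℕ)) =
        PIE_a c (fun j => mu j + (m - 1 - (j : ℕ))) := (hJTB m c mu).symm
    rw [mul_assoc, h1, PIE_sum, Finset.sum_mul]
    refine Finset.sum_congr rfl fun k _ => ?_
    have h2 : PIE_a c ((fun j : Fin m => mu j + (m - 1 - (j : ℕ))) + Pi.single k 1) =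
        schur (mu + Pi.single k 1) (Finset.univ.val.map c) *
          PIE_a c (fun j => m - 1 - (j : ℕ)) := by
      have := hJTB m c (mu + Pi.single k 1)
      refine Eq.trans ?_ this
      unfold PIE_a
      congr 1
      ext i j
      simp only [Matrix.of_apply, Pi.add_apply]
      congr 1
      ring
    split_ifs with hA
    · exact h2
    · rw [zero_mul]
      -- two equal exponents
      have hex : ∃ i : Fin m, i < k ∧ mu i = mu k := by
        by_contra hno
        push Not at hno
        apply hA
        intro i j hij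
        simp only [Pi.add_apply]
        have h3 := hmu hij
        by_cases hjk : j = k
        · subst hjk
          by_cases hik : i = j
          · rw [hik]
          · have h4 := hno i (lt_of_le_of_ne hij hik)
            rw [Pi.single_eq_same, Pi.single_eq_of_ne hik]
            omega
        · rw [Pi.single_eq_of_ne hjk]
          omega
      obtain ⟨i, hik, hi⟩ := hex
      have hk0 : 0 < (k : ℕ) := lt_of_le_of_lt (Nat.zero_le _) hik
      have hkm := k.2
      set i' : Fin m := ⟨(k : ℕ) - 1, by omega⟩ with hi'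
      have h5 : i ≤ i' := by
        rw [Fin.le_def]
        have : (i : ℕ) < (k : ℕ) := hik
        simp only [hi']
        omega
      have h6 : i' ≤ k := by
        rw [Fin.le_def]
        simp only [hi']
        omega
      have h7 : mu i' = mu k := le_antisymm (hi ▸ hmu h5) (hmu h6)
      have hne : i' ≠ k := by
        intro h
        have := congrArg Fin.val h
        simp only [hi'] at this
        omega
      refine PIE_zero c _ hne ?_
      simp only [Pi.add_apply]
      rw [Pi.single_eq_same, Pi.single_eq_of_ne hne, h7]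
      simp only [hi']
      omega
  rw [hsum]
  -- continuity
  have hf : Continuous fun c : Fin m → ℂ => (∑ j, c j) * schur mu (Finset.univ.val.map c) := by
    refine Continuous.mul (by fun_prop) (PIE_schur_cont m mu)
  have hg : Continuous fun c : Fin m → ℂ => ∑ i, if Antitone (mu + Pi.single i 1) then
      schur (mu + Pi.single i 1) (Finset.univ.val.map c) else 0 := by
    refine continuous_finsetSum _ fun i _ => ?_
    split_ifs
    · exact PIE_schur_cont m _
    · exact continuous_const
  have hγ : Continuous fun t : ℂ => fun i : Fin m => c i + t * ((i : ℕ) : ℂ) := by fun_prop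
  have h0 : (fun i : Fin m => c i + (0 : ℂ) * ((i : ℕ) : ℂ)) = c := by
    funext i
    simp
  have t1 : Tendsto (fun t : ℂ => (fun c : Fin m → ℂ => (∑ j, c j) *
      schur mu (Finset.univ.val.map c)) (fun i : Fin m => c i + t * ((i : ℕ) : ℂ)))
      (𝓝[≠] 0) (𝓝 ((∑ j, c j) * schur mu (Finset.univ.val.map c))) := by
    have := (hf.comp hγ).continuousAt (x := (0 : ℂ))
    have h3 : Tendsto _ (𝓝 (0 : ℂ)) _ := this
    simp only [Function.comp_def] at h3
    rw [h0] at h3
    exact h3.mono_left nhdsWithin_le_nhds
  have t2 : Tendsto (fun t : ℂ => (fun c : Fin m → ℂ => ∑ i, if Antitone (mu + Pi.single i 1) then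
      schur (mu + Pi.single i 1) (Finset.univ.val.map c) else 0)
      (fun i : Fin m => c i + t * ((i : ℕ) : ℂ))) (𝓝[≠] 0)
      (𝓝 (∑ i, if Antitone (mu + Pi.single i 1) then
        schur (mu + Pi.single i 1) (Finset.univ.val.map c) else 0)) := by
    have := (hg.comp hγ).continuousAt (x := (0 : ℂ))
    have h3 : Tendsto _ (𝓝 (0 : ℂ)) _ := this
    simp only [Function.comp_def] at h3
    rw [h0] at h3
    exact h3.mono_left nhdsWithin_le_nhds
  refine tendsto_nhds_unique t1 (t2.congr' ?_)
  filter_upwards [PIE_inj c] with t ht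
  exact (hmain _ ht).symm

end Pool.H66.SYM
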