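import Pool.Agent.H66.SYM.Basic

/-!
# Project T5, module RSA: the hermitian symmetry
-/

set_option autoImplicit false
set_option linter.unusedSectionVars false

namespace Pool.H66.SYM

open Filter Topology

/-- trace at the inverse point -/
theorem RSA_inv (hBAS : S_BAS) (A : Aut) (w : A.Cusp) (v : A.Pl) (g : A.W v) :
    starRingEnd ℂ (A.tr w ⟨v, g⁻¹, 1⟩) =
      ((A.ab v g ^ (-(2 * A.expo w)) : ℝ) : ℂ) * A.tr w ⟨v, g, 1⟩ := by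
  obtain ⟨-, -, h3, -, -, -, -, -, h9, -, -, -⟩ := hBAS A
  have e1 : starRingEnd ℂ (A.tr w ⟨v, g⁻¹, 1⟩) =
      ((A.eig w ⟨v, g⁻¹, 1⟩).map (starRingEnd ℂ)).sum := by
    unfold AData.tr
    exact map_multiset_sum _ _
  have e2 : A.eig w ⟨v, g⁻¹, 1⟩ = (A.eig w ⟨v, g, 1⟩).map fun a => a⁻¹ := by
    have := h3 w ⟨v, g, 1⟩ (-1)
    unfold AData.Pt.pow at this
    simpa using this
  rw [e1, h9, e2, Multiset.map_map]
  have hpos := A.ab_pos v g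
  have e3 : A.ab v g⁻¹ ^ (2 * A.expo w) = A.ab v g ^ (-(2 * A.expo w)) := by
    have : A.ab v g⁻¹ = (A.ab v g)⁻¹ := map_inv (A.ab v) g
    rw [this, Real.inv_rpow hpos.le, Real.rpow_neg hpos.le]
  rw [e3]
  have e4 : ((fun a : ℂ => ((A.ab v g ^ (-(2 * A.expo w)) : ℝ) : ℂ) / a) ∘ fun a : ℂ => a⁻¹) =
      fun a : ℂ => ((A.ab v g ^ (-(2 * A.expo w)) : ℝ) : ℂ) * a := by
    funext a
    simp
  rw [e4, Multiset.sum_map_mul_left]
  unfold AData.tr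
  rw [Multiset.map_id']

/-- Module RSA. -/
theorem s_RSA (hBAS : S_BAS) (hEXP : S_EXP) (hIND : S_IND) : S_RSA := by
  intro A σ x Q hx hQ
  refine (hIND A).1 _ _ (fun v n hn => ?_)
  obtain ⟨g, hg⟩ : ∃ g : A.W v, g = A.Fr v ^ (n : ℤ) := ⟨_, rfl⟩
  have hp : (A.frob v).pow n = ⟨v, g, 1⟩ := by
    unfold AData.frob AData.Pt.pow
    simp [hg]
  rw [hp, sum_eigs, sum_eigs, Multiset.map_map]
  have hpos := A.ab_pos v g
  obtain ⟨-, -, -, -, -, h6, -, h8, -, -, -, -⟩ := hBAS A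
  have e1 : ∀ w : A.Cusp, A.tr (A.mul (A.nrm (2 * (A.expo σ - A.expo w))) w) ⟨v, g, 1⟩ =
      ((A.ab v g ^ (2 * A.expo σ) : ℝ) : ℂ) * starRingEnd ℂ (A.tr w ⟨v, g⁻¹, 1⟩) := by
    intro w
    rw [RSA_inv hBAS A w v g]
    have k1 := h6 (A.nrm (2 * (A.expo σ - A.expo w))) w ⟨v, g, 1⟩ (A.deg_nrm _)
    have k2 : A.tr (A.nrm (2 * (A.expo σ - A.expo w))) ⟨v, g, 1⟩ =
        ((A.ab v g ^ (2 * (A.expo σ - A.expo w)) : ℝ) : ℂ) := by
      unfold AData.tr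
      rw [h8]
      simp
    have k3 : A.tr (A.mul (A.nrm (2 * (A.expo σ - A.expo w))) w) ⟨v, g, 1⟩ =
        ((A.ab v g ^ (2 * (A.expo σ - A.expo w)) : ℝ) : ℂ) * A.tr w ⟨v, g, 1⟩ := by
      rw [show A.tr (A.mul (A.nrm (2 * (A.expo σ - A.expo w))) w) ⟨v, g, 1⟩ =
        (A.eig (A.mul (A.nrm (2 * (A.expo σ - A.expo w))) w) ⟨v, g, 1⟩).sum from rfl, k1, k2,
        Multiset.sum_map_mul_left, Multiset.map_id']
      rfl
    rw [k3, ← mul_assoc, ← Complex.ofReal_mul, ← Real.rpow_add hpos]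
    congr 3
    ring_nf
  have e2 : (Multiset.map ((fun z => A.tr z ⟨v, g, 1⟩) ∘ fun w => A.mul
      (A.nrm (2 * (A.expo σ - A.expo w))) w) Q).sum =
      ((A.ab v g ^ (2 * A.expo σ) : ℝ) : ℂ) * starRingEnd ℂ
        ((Q.map fun w => A.tr w ⟨v, g⁻¹, 1⟩).sum) := by
    rw [map_multiset_sum, Multiset.map_map, ← Multiset.sum_map_mul_left]
    congr 1
    refine Multiset.map_congr rfl (fun w _ => ?_)
    exact e1 w
  rw [e2, ← sum_eigs, hQ ⟨v, g⁻¹, 1⟩, map_mul, RSA_inv hBAS, RSA_inv hBAS, hx, ← sum_eigs,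
    hQ ⟨v, g, 1⟩]
  have e3 : ((A.ab v g ^ (2 * A.expo σ) : ℝ) : ℂ) * ((A.ab v g ^ (-(2 * A.expo σ)) : ℝ) : ℂ) = 1 := by
    rw [← Complex.ofReal_mul, ← Real.rpow_add hpos]
    simp
  have e4 : ((A.ab v g ^ (-(2 * (0:ℝ))) : ℝ) : ℂ) = 1 := by simp
  rw [e4, one_mul, ← mul_assoc, ← mul_assoc, e3, one_mul]

end Pool.H66.SYM
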